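import Pool.Agent.TH536.EW.Arc
import Pool.Agent.H771R3.EN.INT
import Pool.Agent.H771R3.EN.SIZ
import Pool.Agent.H771R3.EN.PF
import Pool.Agent.H771R3.EN.EXP
import Pool.Agent.H771R3.EN.PRO
import Pool.Agent.H771R3.EN.FORM
import Pool.Agent.H771R3.EN.PAR

/-!
# Rational approximation of `a e^n + P(n)` for almost all `n`

`P` is an arbitrary real polynomial, for instance the constant `π` or `-π`; `a` is an arbitrary
real number with `|a| ≥ 1`. For all but `(A / δ) N ^ (1 - δ² / (12800 · 2^D))` of the integers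
`n` in `[1, N]` no rational number with denominator at most `Q` is closer to `a e^n + P(n)` than
`(|a| e^n) ^ (-δ) Q ^ (-96 · 2^D / δ)`.
-/

set_option autoImplicit false

namespace Pool.Agent.Results.MP_9056e9_nt.AlmostAllExponents

open Finset Pool.Agent.H771R3.EN Pool.Agent.TH536.EW

theorem result (D : ℕ) : ∃ A : ℝ, 0 < A ∧
    ∀ (δ a Q : ℝ) (P : Polynomial ℝ) (N : ℕ), 0 < δ → δ ≤ 1 → 1 ≤ |a| → 1 ≤ Q →
      P.natDegree ≤ D → 1 ≤ N →
      ({n : ℕ | 1 ≤ n ∧ n ≤ N ∧ ∃ (q : ℕ) (p : ℤ), 1 ≤ q ∧ (q : ℝ) ≤ Q ∧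
        |a * Real.exp n + P.eval (n : ℝ) - p / q| <
          (|a| * Real.exp n) ^ (-δ) * Q ^ (-(96 * 2 ^ D / δ))}.ncard : ℝ) ≤
        A / δ * (N : ℝ) ^ (1 - δ ^ 2 / (12800 * 2 ^ D)) := by
  classical
  obtain ⟨A, hA, h⟩ := arc (t_FORM t_INT t_SIZ t_PF t_EXP t_PRO) t_VB t_PAR (D + 1)
  refine ⟨4 * A, by positivity, fun δ a Q P N hδ hδ1 ha hQ hP hN => ?_⟩
  have hdeg : P.degree < ((D + 1 : ℕ) : WithBot ℕ) := by
    refine lt_of_le_of_lt Polynomial.degree_le_natDegree ?_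
    exact_mod_cast Nat.lt_succ_of_le hP
  have h2 := h (δ / 4) a Q P N (by positivity) (by linarith) hN ha hQ hdeg
  have e1 : A / (δ / 4) = 4 * A / δ := by
    field_simp
  have e2 : (δ / 4) ^ 2 / (400 * 2 ^ (D + 1)) = δ ^ 2 / (12800 * 2 ^ D) := by
    rw [pow_succ (2 : ℝ) D]
    field_simp
    ring
  rw [e1, e2] at h2
  refine le_trans ?_ h2
  have hsub : {n : ℕ | 1 ≤ n ∧ n ≤ N ∧ ∃ (q : ℕ) (p : ℤ), 1 ≤ q ∧ (q : ℝ) ≤ Q ∧
        |a * Real.exp n + P.eval (n : ℝ) - p / q| <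
          (|a| * Real.exp n) ^ (-δ) * Q ^ (-(96 * 2 ^ D / δ))} ⊆
      (((Icc 1 N).filter (Bad a P Q (δ / 4) (12 * 2 ^ (D + 1))) : Finset ℕ) : Set ℕ) := by
    rintro n ⟨hn1, hn2, q, p, hq1, hq2, hlt⟩
    rw [mem_coe, mem_filter, mem_Icc]
    refine ⟨⟨hn1, hn2⟩, q, p, hq1, hq2, ?_⟩
    have e3 : -(4 * (δ / 4)) = -δ := by ring
    have e4 : 12 * (2 : ℝ) ^ (D + 1) / (δ / 4) = 96 * 2 ^ D / δ := by
      rw [pow_succ (2 : ℝ) D]
      field_simp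
      ring
    rw [e3, e4]
    exact hlt.le
  have h3 := Set.ncard_le_ncard hsub (Finset.finite_toSet _)
  rw [Set.ncard_coe_finset] at h3
  exact_mod_cast h3

end Pool.Agent.Results.MP_9056e9_nt.AlmostAllExponents
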