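import Mathlib
import Pool.Agent.TH723.BR.Multi
import Pool.Agent.H340R2.LW

set_option autoImplicit false

/-!
For all real `x` outside a set of uniqueness for trigonometric series the sequences `(x e^n)` and
`(x π^n)` modulo one contain, jointly, arbitrarily good approximations of all finite patterns.
-/

namespace Pool.Agent.Results.MP_9056e9_nt.DilatesUniqueness

open Filter Topology
open Pool.Agent.TH723.BR

/-- the windows `(a e^n, …, a e^(n+M-1), a π^n, …, a π^(n+M-1))` -/
noncomputable def win (a : ℝ) (M : ℕ) (n : ℕ) (j : Fin (M + M)) : ℝ :=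
  if (j : ℕ) < M then a * Real.exp 1 ^ (n + j) else a * Real.pi ^ (n + (j - M))

lemma eval_ne {θ : ℝ} (hθ : Transcendental ℚ θ) {M : ℕ} (b : Fin M → ℤ) (hb : b ≠ 0) :
    ∑ j, (b j : ℝ) * θ ^ (j : ℕ) ≠ 0 := by
  intro h
  apply hb
  set P : Polynomial ℚ := ∑ j : Fin M, Polynomial.C (b j : ℚ) * Polynomial.X ^ (j : ℕ) with hP
  have h1 : Polynomial.aeval θ P = 0 := by
    rw [hP, map_sum, ← h]
    apply Finset.sum_congr rfl
    intro j _
    simp
  have h2 : P = 0 := by
    by_contra hne
    exact hθ ⟨P, hne, h1⟩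
  ext j
  have h3 : P.coeff (j : ℕ) = (b j : ℚ) := by
    rw [hP, Polynomial.finsetSum_coeff]
    rw [Finset.sum_eq_single j]
    · simp
    · intro i _ hij
      rw [Polynomial.coeff_C_mul, Polynomial.coeff_X_pow, if_neg, mul_zero]
      exact fun hc => hij (Fin.ext hc.symm)
    · intro hc
      exact absurd (Finset.mem_univ _) hc
  rw [h2, Polynomial.coeff_zero] at h3
  have : (b j : ℚ) = 0 := h3.symm
  exact_mod_cast this

lemma win_QR {a : ℝ} (ha : a ≠ 0) (M : ℕ) : QR (win a M) := by
  intro b hb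
  set p : Fin M → ℤ := fun j => b (Fin.castAdd M j) with hp
  set q : Fin M → ℤ := fun j => b (Fin.natAdd M j) with hq
  set A : ℝ := ∑ j, (p j : ℝ) * Real.exp 1 ^ (j : ℕ) with hA
  set B : ℝ := ∑ j, (q j : ℝ) * Real.pi ^ (j : ℕ) with hB
  have hsum : ∀ n, ∑ j, (b j : ℝ) * win a M n j =
      a * (A * Real.exp 1 ^ n + B * Real.pi ^ n) := by
    intro n
    rw [Fin.sum_univ_add, hA, hB, Finset.sum_mul, Finset.sum_mul, mul_add, Finset.mul_sum,
      Finset.mul_sum]
    congr 1
    · apply Finset.sum_congr rfl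
      intro j _
      unfold win
      rw [if_pos (by simp)]
      simp only [Fin.val_castAdd, hp, pow_add]
      ring
    · apply Finset.sum_congr rfl
      intro j _
      unfold win
      rw [if_neg (by simp)]
      simp only [Fin.val_natAdd, hq, Nat.add_sub_cancel_left, pow_add]
      ring
  have hneg : A ≠ 0 ∨ B ≠ 0 := by
    by_contra hc
    push Not at hc
    obtain ⟨h1, h2⟩ := hc
    apply hb
    have h3 : p = 0 := by
      by_contra hne
      exact eval_ne Pool.Agent.H340R2.LW.transcendental_exp_one p hne h1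
    have h4 : q = 0 := by
      by_contra hne
      exact eval_ne Pool.Agent.H340R2.LW.transcendental_pi q hne h2
    ext j
    refine Fin.addCases (fun i => ?_) (fun i => ?_) j
    · exact congrFun h3 i
    · exact congrFun h4 i
  have he1 : 1 < Real.exp 1 := by
    have := Real.add_one_lt_exp (one_ne_zero : (1:ℝ) ≠ 0)
    linarith
  have he3 : Real.exp 1 < Real.pi := by
    have h1 := Real.exp_one_lt_d9
    have h2 := Real.pi_gt_three
    linarith
  have hepos : 0 < Real.exp 1 := Real.exp_pos 1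
  have hpi := Real.pi_pos
  simp_rw [hsum]
  have ha0 : 0 < |a| := abs_pos.2 ha
  by_cases hB0 : B = 0
  · have hA0 : A ≠ 0 := hneg.resolve_right (fun h => h hB0)
    have h1 := (tendsto_pow_atTop_atTop_of_one_lt he1).const_mul_atTop
      (mul_pos ha0 (abs_pos.2 hA0))
    refine h1.congr fun n => ?_
    rw [hB0, zero_mul, add_zero, abs_mul, abs_mul, abs_of_pos (pow_pos hepos n)]
    ring
  · -- the powers of π dominate
    have h1 : Tendsto (fun n : ℕ => (Real.exp 1 / Real.pi) ^ n) atTop (𝓝 0) :=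
      tendsto_pow_atTop_nhds_zero_of_lt_one (by positivity) ((div_lt_one hpi).2 he3)
    have h2 : Tendsto (fun n : ℕ => |a| * |A * (Real.exp 1 / Real.pi) ^ n + B|) atTop
        (𝓝 (|a| * |A * 0 + B|)) := (((h1.const_mul A).add_const B).abs).const_mul _
    rw [mul_zero, zero_add] at h2
    have h3 := (tendsto_pow_atTop_atTop_of_one_lt (he1.trans he3)).atTop_mul_pos
      (mul_pos ha0 (abs_pos.2 hB0)) h2
    refine h3.congr fun n => ?_
    have e1 : A * Real.exp 1 ^ n + B * Real.pi ^ n =
        Real.pi ^ n * (A * (Real.exp 1 / Real.pi) ^ n + B) := by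
      rw [div_pow]
      field_simp
    rw [e1, abs_mul, abs_mul, abs_of_pos (pow_pos hpi n)]
    ring

/-- Let `A` be a countable set of nonzero real numbers. If a trigonometric series
`∑ c_n e(n x)` converges to zero at every real `x` such that, for every `a ∈ A`, all pairs of
sequences of targets `β`, `γ`, all `ε > 0`, all window lengths `M` and all `N`, there is `n ≥ N` with
`‖a x e^(n+j) - β_j‖ < ε` and `‖a x π^(n+j) - γ_j‖ < ε` for all `0 ≤ j < M`, then all its
coefficients are zero. -/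
theorem result (A : Set ℝ) (hA : A.Countable) (hA0 : (0 : ℝ) ∉ A) (c : ℤ → ℂ)
    (hc : ∀ x : ℝ,
      (∀ a ∈ A, ∀ (β γ : ℕ → ℝ) (ε : ℝ), 0 < ε → ∀ M N : ℕ, ∃ n, N ≤ n ∧ ∀ j < M,
        |a * x * Real.exp 1 ^ (n + j) - β j - round (a * x * Real.exp 1 ^ (n + j) - β j)| < ε ∧
        |a * x * Real.pi ^ (n + j) - γ j - round (a * x * Real.pi ^ (n + j) - γ j)| < ε) →
      Tendsto (fun N : ℕ => ∑ n ∈ Finset.Icc (-(N : ℤ)) (N : ℤ),
        c n * Complex.exp (2 * (Real.pi : ℂ) * Complex.I * (n : ℂ) * (x : ℂ))) atTop (𝓝 0)) :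
    ∀ n, c n = 0 := by
  have : Countable A := hA.to_subtype
  apply uniqueness_real (ι := A × ℕ) (fun i => i.2 + i.2) (fun i => win i.1 i.2)
    (fun i => win_QR (fun h => hA0 (h ▸ i.1.2)) i.2) c
  intro x hx
  refine hc x fun a ha β γ ε hε M N => ?_
  obtain ⟨n, hn, h⟩ := hx (⟨a, ha⟩, M) (fun j => if (j : ℕ) < M then β j else γ (j - M)) ε hε N
  refine ⟨n, hn, fun j hj => ⟨?_, ?_⟩⟩
  · have h1 := h (Fin.castAdd M ⟨j, hj⟩)
    simp only [win, Fin.val_castAdd, if_pos hj] at h1
    have e1 : a * Real.exp 1 ^ (n + j) * x = a * x * Real.exp 1 ^ (n + j) := by ring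
    rw [e1] at h1
    exact h1
  · have h1 := h (Fin.natAdd M ⟨j, hj⟩)
    have h2 : ¬ (M + j < M) := by omega
    simp only [win, Fin.val_natAdd, if_neg h2, Nat.add_sub_cancel_left] at h1
    have e1 : a * Real.pi ^ (n + j) * x = a * x * Real.pi ^ (n + j) := by ring
    rw [e1] at h1
    exact h1

end Pool.Agent.Results.MP_9056e9_nt.DilatesUniqueness
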