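import Pool.Agent.TH373.EN.SpanArc

/-!
# The numbers `ξ e ^ n` and finite-dimensional spaces
-/

set_option autoImplicit false

namespace Pool.Agent.Results.MP_9056e9_nt.FiniteDimensionalSpaces

/-- There is an absolute constant `A` such that for all real numbers `t_1, …, t_r`, `ξ ≠ 0`, all
`0 < δ ≤ 1` and `N ≥ 1`, with `κ = (δ/(r+2))²/5000`, for at most
`A (r+2)³/δ (N^(1-κ) + |log |ξ||)` of the integers `1 ≤ n ≤ N` there are integers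
`a, b, c_1, …, c_r` with `b ≠ 0`, `|b|, |c_i| ≤ e^(κ n)` and
`|a + b ξ e^n + c_1 t_1 + … + c_r t_r| < e^(-δ n)`. -/
theorem result : ∃ A : ℝ, 0 < A ∧ ∀ (r : ℕ) (t : Fin r → ℝ) (δ : ℝ), 0 < δ → δ ≤ 1 →
    ∀ N : ℕ, 1 ≤ N → ∀ ξ : ℝ, ξ ≠ 0 →
    ({n : ℕ | 1 ≤ n ∧ n ≤ N ∧ ∃ (a b : ℤ) (c : Fin r → ℤ), b ≠ 0 ∧
      |(b : ℝ)| ≤ Real.exp ((δ / (r + 2)) ^ 2 / 5000 * n) ∧
      (∀ i, |(c i : ℝ)| ≤ Real.exp ((δ / (r + 2)) ^ 2 / 5000 * n)) ∧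
      |a + b * (ξ * Real.exp n) + ∑ i, c i * t i| < Real.exp (-(δ * n))}.ncard : ℝ) ≤
      A * ((r + 2) ^ 3 / δ) * ((N : ℝ) ^ (1 - (δ / (r + 2)) ^ 2 / 5000) + |Real.log (|ξ|)|) := by
  classical
  obtain ⟨A, hA, h⟩ := Pool.Agent.TH373.EN.arcS
  refine ⟨A, hA, fun r t δ h0 h1 N hN ξ hξ => ?_⟩
  have h2 := h r t δ h0 h1 N hN ξ hξ
  have e : {n : ℕ | 1 ≤ n ∧ n ≤ N ∧ ∃ (a b : ℤ) (c : Fin r → ℤ), b ≠ 0 ∧
      |(b : ℝ)| ≤ Real.exp ((δ / (r + 2)) ^ 2 / 5000 * n) ∧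
      (∀ i, |(c i : ℝ)| ≤ Real.exp ((δ / (r + 2)) ^ 2 / 5000 * n)) ∧
      |a + b * (ξ * Real.exp n) + ∑ i, c i * t i| < Real.exp (-(δ * n))} =
      (((Finset.Icc 1 N).filter (fun n : ℕ => Pool.Agent.TH373.EN.BadS t δ ξ n)) : Set ℕ) := by
    ext n
    simp [Pool.Agent.TH373.EN.BadS, and_assoc]
  rw [e, Set.ncard_coe_finset]
  convert h2

end Pool.Agent.Results.MP_9056e9_nt.FiniteDimensionalSpaces
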