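import Pool.Agent.TH373.EN.Weyl

/-!
# Weighted Weyl sums of `(e ^ n)` over arithmetic progressions of real frequencies
-/

set_option autoImplicit false

namespace Pool.Agent.Results.MP_9056e9_nt.RealFrequencies

open Finset

/-- There is an absolute constant `A` such that for all `0 < δ ≤ 1`, `N ≥ 1`, all real `β ≠ 0`, all
complex weights `z n` of absolute value at most one and all integers `H ≥ e^(δ N)` the mean over
`1 ≤ h ≤ H` of `|∑_{n ≤ N} z n exp(2πi h β e^n)|²` is at most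
`(A/δ) (N^(2-δ²/5120) + N |log |β||)`. -/
theorem result : ∃ A : ℝ, 0 < A ∧ ∀ δ : ℝ, 0 < δ → δ ≤ 1 → ∀ N : ℕ, 1 ≤ N → ∀ β : ℝ, β ≠ 0 →
    ∀ z : ℕ → ℂ, (∀ n, ‖z n‖ ≤ 1) → ∀ H : ℕ, Real.exp (δ * N) ≤ H →
    (∑ h ∈ Icc 1 H, ‖∑ n ∈ Icc 1 N,
      z n * Complex.exp (2 * Real.pi * Complex.I * h * (β * Real.exp n))‖ ^ 2) / H ≤
    A / δ * ((N : ℝ) ^ (2 - δ ^ 2 / 5120) + N * |Real.log (|β|)|) := by
  obtain ⟨A, hA, h⟩ := Pool.Agent.TH373.EN.weyl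
  refine ⟨A, hA, fun δ h0 h1 N hN β hβ z hz H hH => ?_⟩
  have hpos : (0 : ℝ) < H := lt_of_lt_of_le (Real.exp_pos _) hH
  rw [div_le_iff₀ hpos]
  have := h δ h0 h1 N hN β hβ z hz H hH
  push_cast at this ⊢
  calc _ ≤ A / δ * H * ((N : ℝ) ^ (2 - δ ^ 2 / 5120) + N * |Real.log (|β|)|) := this
    _ = _ := by ring

end Pool.Agent.Results.MP_9056e9_nt.RealFrequencies
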